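import Pool.Agent.Q53.LFY.K3

/-!
# Cubic fourfolds with classes of planes and of cubic scrolls: the discriminants 14, 26 and 42
-/

set_option autoImplicit false

namespace Pool.Agent.Q53.LFA

open Pool.Agent.Q53.LFY Pool.Agent.Q53.LFY.CubLat

variable (H : CubLat)

/-- Some Hodge vector `v` for which `h` and `v` span a saturated group has discriminant `d`. -/
def InC (d : ℤ) : Prop := ∃ v, H.IsHodge v ∧ H.Saturated v ∧ H.disc v = d

/-- a Hodge class with the degree and the self-intersection number of a cubic scroll -/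
def IsScroll (T : Fin 23 → ℤ) : Prop := H.IsHodge T ∧ H.ip T H.h = 3 ∧ H.ip T T = 7

/-- the primitive part of the class of a cubic scroll -/
def IsV (v : Fin 23 → ℤ) : Prop := H.IsHodge v ∧ H.ip v H.h = 0 ∧ H.ip v v = 4

variable {H}

theorem isV_sub (hH : H.IsCubic) {T : Fin 23 → ℤ} (hT : IsScroll H T) : IsV H (T - H.h) := by
  obtain ⟨h1, h2, h3⟩ := hT
  refine ⟨H.isHodge_sub h1 hH.h_hodge, ?_, ?_⟩
  · rw [ip_sub_left, h2, hH.h_self]; norm_num
  · simp only [ip_sub_left, ip_sub_right, h2, h3, hH.h_self, hH.comm H.h T]; norm_num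

theorem isScroll_add (hH : H.IsCubic) {v : Fin 23 → ℤ} (hv : IsV H v) :
    IsScroll H (v + H.h) := by
  obtain ⟨h1, h2, h3⟩ := hv
  refine ⟨H.isHodge_add h1 hH.h_hodge, ?_, ?_⟩
  · rw [ip_add_left, h2, hH.h_self]; norm_num
  · simp only [ip_add_left, ip_add_right, h2, h3, hH.h_self, hH.comm H.h v]; norm_num

theorem IsV.neg {v : Fin 23 → ℤ} (hv : IsV H v) : IsV H (-v) := by
  obtain ⟨h1, h2, h3⟩ := hv
  refine ⟨H.isHodge_neg h1, ?_, ?_⟩
  · rw [ip_neg_left, h2]; norm_num
  · rw [ip_neg_left, ip_neg_right, h3]; norm_num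

/-- a Hodge class with a positive discriminant without square factors gives a point of `C_d` -/
theorem inC_of_disc (hH : H.IsCubic) {v : Fin 23 → ℤ} (hv : H.IsHodge v) {d : ℤ}
    (hd : H.disc v = d) (h0 : 0 < d) (hsq : ∀ m e : ℤ, m ^ 2 * e = d → 0 < m → m = 1) :
    InC H d := by
  obtain ⟨w, m, l, hm, hsat, hw⟩ := hH.exists_saturated v (by rw [hd]; exact h0)
  have h1 : m ^ 2 * H.disc w = d := by rw [← hd, hw, hH.disc_comb]
  have h2 := hsq m _ h1 hm
  subst h2
  refine ⟨w, ?_, hsat, by rw [← h1]; ring⟩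
  have h3 : w = v - l • H.h := by rw [hw]; module
  rw [h3]
  exact H.isHodge_sub hv (H.isHodge_smul _ hH.h_hodge)

theorem sqf {d : ℤ} (hd : d = 14 ∨ d = 26 ∨ d = 42) (m e : ℤ) (h : m ^ 2 * e = d) (hm : 0 < m) :
    m = 1 := by
  have he : 0 < e := by
    by_contra hcon
    have : m ^ 2 * e ≤ 0 := mul_nonpos_of_nonneg_of_nonpos (by positivity) (by omega)
    omega
  have h1 : m ^ 2 ≤ m ^ 2 * e := by nlinarith [sq_nonneg m]
  have h2 : m < 7 := by
    rw [h] at h1
    have h4 : m ^ 2 ≤ 42 := by omega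
    nlinarith
  have h3 : e ≤ 42 := by
    have : 1 * e ≤ m ^ 2 * e := by
      apply mul_le_mul_of_nonneg_right _ he.le
      nlinarith
    omega
  interval_cases m
  · rfl
  all_goals omega

theorem inC_small (hH : H.IsCubic) {v : Fin 23 → ℤ} (hv : H.IsHodge v) {d : ℤ}
    (hd : H.disc v = d) (hd' : d = 14 ∨ d = 26 ∨ d = 42) : InC H d :=
  inC_of_disc hH hv hd (by omega) (sqf hd')

theorem admissible_small {d : ℤ} (hd : d = 14 ∨ d = 26 ∨ d = 42) : Admissible d := by
  rcases hd with rfl | rfl | rfl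
  · refine ⟨by norm_num, by omega, by omega, fun p hp hp2 hpd => ?_⟩
    have h1 : p ∣ 14 := by exact_mod_cast hpd
    have h2 : p ≤ 14 := Nat.le_of_dvd (by norm_num) h1
    interval_cases p <;> revert hp hp2 h1 <;> decide
  · refine ⟨by norm_num, by omega, by omega, fun p hp hp2 hpd => ?_⟩
    have h1 : p ∣ 26 := by exact_mod_cast hpd
    have h2 : p ≤ 26 := Nat.le_of_dvd (by norm_num) h1
    interval_cases p <;> revert hp hp2 h1 <;> decide
  · refine ⟨by norm_num, by omega, by omega, fun p hp hp2 hpd => ?_⟩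
    have h1 : p ∣ 42 := by exact_mod_cast hpd
    have h2 : p ≤ 42 := Nat.le_of_dvd (by norm_num) h1
    interval_cases p <;> revert hp hp2 h1 <;> decide

theorem hasK3_of_inC {d : ℤ} (hd : d = 14 ∨ d = 26 ∨ d = 42) (h : InC H d) : H.HasK3 := by
  obtain ⟨v, h1, h2, h3⟩ := h
  exact ⟨v, h1, h2, by rw [h3]; exact admissible_small hd⟩

/-- the norms of the Hodge classes orthogonal to `h` -/
theorem prim_norm (hH : H.IsCubic) {z : Fin 23 → ℤ} (hz : H.IsHodge z) (hzh : H.ip z H.h = 0) :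
    0 ≤ H.ip z z ∧ Even (H.ip z z) ∧ H.ip z z ≠ 2 ∧ (H.ip z z = 0 → z = 0) := by
  refine ⟨hH.nonneg hz, ?_, hH.disc_six z hz hzh, ?_⟩
  · have := hH.char z
    rwa [hzh, sub_zero] at this
  · intro h
    by_contra hne
    have := hH.pos z hz hne
    omega

theorem ne_fourteen (hH : H.IsCubic) (h42 : ¬ InC H 42) {z : Fin 23 → ℤ} (hz : H.IsHodge z)
    (hzh : H.ip z H.h = 0) : H.ip z z ≠ 14 := by
  intro h
  apply h42
  refine inC_small hH hz (d := 42) ?_ (by norm_num)
  rw [disc, h, hH.comm H.h z, hzh]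
  norm_num

/-- two disjoint planes -/
theorem inC_planes (hH : H.IsCubic) {P Q : Fin 23 → ℤ} (hP : H.IsPl P) (hQ : H.IsPl Q)
    (h : H.ip P Q = 0) : InC H 14 := by
  refine inC_small hH (v := P + Q - H.h)
    (H.isHodge_sub (H.isHodge_add hP.1 hQ.1) hH.h_hodge) ?_ (by norm_num)
  simp only [disc, ip_add_left, ip_add_right, ip_sub_left, ip_sub_right, hP.2.1, hP.2.2, hQ.2.1,
    hQ.2.2, hH.h_self, hH.comm Q P, h, hH.comm H.h P, hH.comm H.h Q]
  norm_num

/-- the intersection numbers of two planes -/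
theorem plane_plane (hH : H.IsCubic) {P Q : Fin 23 → ℤ} (hP : H.IsPl P) (hQ : H.IsPl Q) :
    P = Q ∨ H.ip P Q = 0 ∨ H.ip P Q = 1 ∨ H.ip P Q = -1 := by
  have h1 := prim_norm hH (z := P - Q) (H.isHodge_sub hP.1 hQ.1) (by
    rw [ip_sub_left, hP.2.1, hQ.2.1]; norm_num)
  have e1 : H.ip (P - Q) (P - Q) = 6 - 2 * H.ip P Q := by
    simp only [ip_sub_left, ip_sub_right, hP.2.2, hQ.2.2, hH.comm Q P]; ring
  have e2 : H.ip (P + Q - H.h) (P + Q - H.h) = 5 + 2 * H.ip P Q := by
    simp only [ip_add_left, ip_add_right, ip_sub_left, ip_sub_right, hP.2.1, hP.2.2, hQ.2.1,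
      hQ.2.2, hH.h_self, hH.comm Q P, hH.comm H.h P, hH.comm H.h Q]
    ring
  have hz : H.IsHodge (P + Q - H.h) := H.isHodge_sub (H.isHodge_add hP.1 hQ.1) hH.h_hodge
  have h2 := hH.nonneg hz
  have h3 : H.ip (-(P + Q - H.h)) (-(P + Q - H.h)) ≠ 1 := by
    apply hH.disc_two _ (H.isHodge_neg hz)
    rw [ip_neg_left, ip_sub_left, ip_add_left, hP.2.1, hQ.2.1, hH.h_self]
    norm_num
  rw [ip_neg_left, ip_neg_right, e2] at h3
  rw [e1] at h1
  rw [e2] at h2
  obtain ⟨a1, a2, a3, a4⟩ := h1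
  by_cases h : H.ip P Q = 3
  · left
    have := a4 (by rw [h]; norm_num)
    exact sub_eq_zero.1 this
  · right
    omega

/-- the intersection number of a plane and of the primitive part of a scroll -/
theorem plane_scroll (hH : H.IsCubic) {P v : Fin 23 → ℤ} (hP : H.IsPl P) (hv : IsV H v) :
    InC H 14 ∨ H.ip P v = 0 ∨ (H.ip P v = 2 ∧ H.IsPl (P - v)) ∨
      (H.ip P v = -2 ∧ H.IsPl (P + v)) := by
  have hPv : H.ip v P = H.ip P v := hH.comm _ _
  have hhv : H.ip H.h v = 0 := by rw [hH.comm]; exact hv.2.1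
  have hhP : H.ip H.h P = 1 := by rw [hH.comm]; exact hP.2.1
  have e1 : H.ip (P - v) (P - v) = 7 - 2 * H.ip P v := by
    simp only [ip_sub_left, ip_sub_right, hP.2.2, hv.2.2, hPv]; ring
  have e2 : H.ip (P + v) (P + v) = 7 + 2 * H.ip P v := by
    simp only [ip_add_left, ip_add_right, hP.2.2, hv.2.2, hPv]; ring
  have g1 : H.ip (P - v) H.h = 1 := by rw [ip_sub_left, hP.2.1, hv.2.1]; norm_num
  have g2 : H.ip (P + v) H.h = 1 := by rw [ip_add_left, hP.2.1, hv.2.1]; norm_num
  have z1 : H.IsHodge (P - v) := H.isHodge_sub hP.1 hv.1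
  have z2 : H.IsHodge (P + v) := H.isHodge_add hP.1 hv.1
  have h1 := hH.disc_two _ z1 g1
  have h2 := hH.disc_two _ z2 g2
  have h3 := hH.nonneg z1
  have h4 := hH.nonneg z2
  rw [e1] at h1 h3
  rw [e2] at h2 h4
  have hr : H.ip P v = 0 ∨ H.ip P v = 1 ∨ H.ip P v = -1 ∨ H.ip P v = 2 ∨ H.ip P v = -2 := by omega
  rcases hr with h | h | h | h | h
  · exact Or.inr (Or.inl h)
  · left
    refine inC_small hH z1 ?_ (Or.inl rfl)
    rw [disc, e1, hH.comm H.h, g1, h]; norm_num
  · left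
    refine inC_small hH z2 ?_ (Or.inl rfl)
    rw [disc, e2, hH.comm H.h, g2, h]; norm_num
  · exact Or.inr (Or.inr (Or.inl ⟨h, z1, g1, by rw [e1, h]; norm_num⟩))
  · exact Or.inr (Or.inr (Or.inr ⟨h, z2, g2, by rw [e2, h]; norm_num⟩))

/-- the intersection numbers of the primitive parts of two scrolls -/
theorem scroll_scroll (hH : H.IsCubic) {v w : Fin 23 → ℤ} (hv : IsV H v) (hw : IsV H w) :
    v = w ∨ v = -w ∨ (-2 ≤ H.ip v w ∧ H.ip v w ≤ 2) := by
  have hvw : H.ip w v = H.ip v w := hH.comm _ _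
  have h1 := prim_norm hH (z := v - w) (H.isHodge_sub hv.1 hw.1) (by
    rw [ip_sub_left, hv.2.1, hw.2.1]; norm_num)
  have h2 := prim_norm hH (z := v + w) (H.isHodge_add hv.1 hw.1) (by
    rw [ip_add_left, hv.2.1, hw.2.1]; norm_num)
  have e1 : H.ip (v - w) (v - w) = 8 - 2 * H.ip v w := by
    simp only [ip_sub_left, ip_sub_right, hv.2.2, hw.2.2, hvw]; ring
  have e2 : H.ip (v + w) (v + w) = 8 + 2 * H.ip v w := by
    simp only [ip_add_left, ip_add_right, hv.2.2, hw.2.2, hvw]; ring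
  rw [e1] at h1
  rw [e2] at h2
  obtain ⟨a1, a2, a3, a4⟩ := h1
  obtain ⟨b1, b2, b3, b4⟩ := h2
  by_cases h : H.ip v w = 4
  · left
    exact sub_eq_zero.1 (a4 (by rw [h]; norm_num))
  by_cases h' : H.ip v w = -4
  · right; left
    exact eq_neg_of_add_eq_zero_left (b4 (by rw [h']; norm_num))
  right; right
  omega

/-- a plane and two scrolls with an odd intersection number -/
theorem inC_plane_odd (hH : H.IsCubic) {P u v : Fin 23 → ℤ} (hP : H.IsPl P) (hu : IsV H u)
    (hv : IsV H v) (h : Odd (H.ip u v)) : InC H 14 ∨ InC H 26 := by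
  have huv : H.ip v u = H.ip u v := hH.comm _ _
  -- reduce to the case of a plane orthogonal to `u` and `v`
  rcases plane_scroll hH hP hu with h1 | h1 | ⟨h1, h2⟩ | ⟨h1, h2⟩
  · exact Or.inl h1
  · rcases plane_scroll hH hP hv with h3 | h3 | ⟨h3, h4⟩ | ⟨h3, h4⟩
    · exact Or.inl h3
    · right
      rcases scroll_scroll hH hu hv with h5 | h5 | ⟨h5, h6⟩
      · rw [h5, hv.2.2] at h; exact absurd h (by decide)
      · rw [h5, ip_neg_left, hv.2.2] at h; exact absurd h (by decide)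
      have h7 : H.ip u v = 1 ∨ H.ip u v = -1 := by
        obtain ⟨k, hk⟩ := h
        omega
      have hPu : H.ip u P = 0 := by rw [hH.comm]; exact h1
      have hPv : H.ip v P = 0 := by rw [hH.comm]; exact h3
      have hhu : H.ip H.h u = 0 := by rw [hH.comm]; exact hu.2.1
      have hhv : H.ip H.h v = 0 := by rw [hH.comm]; exact hv.2.1
      have hhP : H.ip H.h P = 1 := by rw [hH.comm]; exact hP.2.1
      rcases h7 with h7 | h7
      · refine inC_small hH (v := P + u - v)
          (H.isHodge_sub (H.isHodge_add hP.1 hu.1) hv.1) ?_ (by norm_num)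
        simp only [disc, ip_add_left, ip_add_right, ip_sub_left, ip_sub_right, hP.2.2, hu.2.2,
          hv.2.2, h1, h3, hPu, hPv, hhu, hhv, hhP, huv, h7]
        norm_num
      · refine inC_small hH (v := P + u + v)
          (H.isHodge_add (H.isHodge_add hP.1 hu.1) hv.1) ?_ (by norm_num)
        simp only [disc, ip_add_left, ip_add_right, hP.2.2, hu.2.2,
          hv.2.2, h1, h3, hPu, hPv, hhu, hhv, hhP, huv, h7]
        norm_num
    · left
      rcases plane_scroll hH h4 hu with h5 | h5 | ⟨h5, _⟩ | ⟨h5, _⟩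
      · exact h5
      all_goals
        exfalso
        rw [ip_sub_left, h1, huv] at h5
        obtain ⟨k, hk⟩ := h
        omega
    · left
      rcases plane_scroll hH h4 hu with h5 | h5 | ⟨h5, _⟩ | ⟨h5, _⟩
      · exact h5
      all_goals
        exfalso
        rw [ip_add_left, h1, huv] at h5
        obtain ⟨k, hk⟩ := h
        omega
  · left
    rcases plane_scroll hH hP hv with h3 | h3 | ⟨h3, h4⟩ | ⟨h3, h4⟩
    · exact h3
    all_goals
      rcases plane_scroll hH h2 hv with h5 | h5 | ⟨h5, _⟩ | ⟨h5, _⟩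
      · exact h5
      all_goals
        exfalso
        rw [ip_sub_left, h3] at h5
        obtain ⟨k, hk⟩ := h
        omega
  · left
    rcases plane_scroll hH hP hv with h3 | h3 | ⟨h3, h4⟩ | ⟨h3, h4⟩
    · exact h3
    all_goals
      rcases plane_scroll hH h2 hv with h5 | h5 | ⟨h5, _⟩ | ⟨h5, _⟩
      · exact h5
      all_goals
        exfalso
        rw [ip_add_left, h3] at h5
        obtain ⟨k, hk⟩ := h
        omega

end Pool.Agent.Q53.LFA
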