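import Pool.Agent.Q53.LFA.Mod4

/-!
# Classes of scrolls: finite computations
-/

set_option autoImplicit false

namespace Pool.Agent.Q53.LFA

open Finset

/-- the norm of a combination of three vectors of norm four -/
def N3 (p q r α β γ : ℤ) : ℤ :=
  4 * (α ^ 2 + β ^ 2 + γ ^ 2) + 2 * (α * β * p + α * γ * q + β * γ * r)

/-- the norm of a combination of four vectors of norm four -/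
def N4 (p q r a b c α β γ δ : ℤ) : ℤ :=
  N3 p q r α β γ + 4 * δ ^ 2 + 2 * δ * (α * a + β * b + γ * c)

/-- the norm of a combination of five vectors of norm four -/
def N5 (p q r a b c a' b' c' d α β γ δ ε : ℤ) : ℤ :=
  N4 p q r a b c α β γ δ + 4 * ε ^ 2 + 2 * ε * (α * a' + β * b' + γ * c' + δ * d)

/-- the possible norms -/
def Ok (N : ℤ) : Prop := 0 ≤ N ∧ N ≠ 2 ∧ N ≠ 14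

instance (N : ℤ) : Decidable (Ok N) := by unfold Ok; infer_instance

theorem claim3 : ∀ a ∈ Icc (-2 : ℤ) 2, ∀ b ∈ Icc (-2 : ℤ) 2,
    (∀ α ∈ Icc (-2 : ℤ) 2, ∀ β ∈ Icc (-2 : ℤ) 2, ∀ γ ∈ Icc (-2 : ℤ) 2, Ok (N3 1 a b α β γ)) →
    ((a - b) % 3 = 0 ∧ a % 3 ≠ 0) ∨ ((a = 1 ∨ a = -1) ∧ b = 0) ∨ (a = 0 ∧ (b = 1 ∨ b = -1)) := by
  decide +kernel

theorem claim4 : ∀ a ∈ Icc (-2 : ℤ) 2, ∀ b ∈ Icc (-2 : ℤ) 2,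
    ∀ a' ∈ Icc (-2 : ℤ) 2, ∀ b' ∈ Icc (-2 : ℤ) 2, ∀ d ∈ Icc (-2 : ℤ) 2,
    (a - b) % 3 = 0 → a % 3 ≠ 0 → (a' - b') % 3 = 0 → a' % 3 ≠ 0 →
    (∀ α ∈ Icc (-2 : ℤ) 2, ∀ β ∈ Icc (-1 : ℤ) 1, ∀ γ ∈ Icc (-1 : ℤ) 1,
      Ok (N4 1 a b a' b' d α β γ 1)) → (d - a * a') % 3 = 0 := by
  decide +kernel

theorem claimX : ∀ a ∈ Icc (-2 : ℤ) 2, ∀ b ∈ Icc (-2 : ℤ) 2, ∀ c ∈ Icc (-2 : ℤ) 2,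
    (∀ α ∈ Icc (-2 : ℤ) 2, ∀ β ∈ Icc (-2 : ℤ) 2, ∀ γ ∈ Icc (-2 : ℤ) 2,
      Ok (N4 1 1 0 a b c α β γ 1) ∧ N4 1 1 0 a b c α β γ 1 ≠ 0) →
    a = 0 ∧ (b = 1 ∨ b = -1) ∧ (c = 1 ∨ c = -1) := by
  decide +kernel

theorem claimXY : ∀ b ∈ ({1, -1} : Finset ℤ), ∀ c ∈ ({1, -1} : Finset ℤ),
    ∀ b' ∈ ({1, -1} : Finset ℤ), ∀ c' ∈ ({1, -1} : Finset ℤ), ∀ d ∈ Icc (-2 : ℤ) 2,
    ¬ ∀ α ∈ Icc (-1 : ℤ) 1, ∀ β ∈ Icc (-1 : ℤ) 1, ∀ γ ∈ Icc (-1 : ℤ) 1, ∀ δ ∈ Icc (-1 : ℤ) 1,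
      Ok (N5 1 1 0 0 b c 0 b' c' d α β γ δ 1) ∧ N5 1 1 0 0 b c 0 b' c' d α β γ δ 1 ≠ 0 := by
  decide +kernel

end Pool.Agent.Q53.LFA
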