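import Pool.Agent.Q53.LFA.Scroll

/-!
# Cubic fourfolds whose Hodge classes are generated by surfaces of degree at most three
-/

set_option autoImplicit false

namespace Pool.Agent.Q53.LFA

open Pool.Agent.Q53.LFY Pool.Agent.Q53.LFY.CubLat Finset

variable {H : CubLat}

theorem dep_span {B G : Set (Fin 23 → ℤ)} (h : ∀ g ∈ G, Dep B g) {x : Fin 23 → ℤ}
    (hx : x ∈ Submodule.span ℤ G) : Dep B x := by
  induction hx using Submodule.span_induction with
  | mem x hx => exact h x hx
  | zero => exact ⟨1, one_ne_zero, by rw [smul_zero]; exact Submodule.zero_mem _⟩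
  | add x y _ _ hx hy =>
    obtain ⟨k, hk, hkx⟩ := hx
    obtain ⟨l, hl, hly⟩ := hy
    refine ⟨k * l, mul_ne_zero hk hl, ?_⟩
    have : (k * l) • (x + y) = l • (k • x) + k • (l • y) := by module
    rw [this]
    exact Submodule.add_mem _ (Submodule.smul_mem _ _ hkx) (Submodule.smul_mem _ _ hly)
  | smul n x _ hx =>
    obtain ⟨k, hk, hkx⟩ := hx
    refine ⟨k, hk, ?_⟩
    rw [smul_comm]
    exact Submodule.smul_mem _ _ hkx

theorem Dep.of_smul {B : Set (Fin 23 → ℤ)} {m : ℤ} (hm : m ≠ 0) {x : Fin 23 → ℤ}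
    (h : Dep B (m • x)) : Dep B x := by
  obtain ⟨k, hk, hkx⟩ := h
  exact ⟨k * m, mul_ne_zero hk hm, by rwa [mul_smul]⟩

theorem card_le_of_dep {n : ℕ} (B : Fin n → Fin 23 → ℤ) {ι : Type} [Fintype ι]
    (f : ι → Fin 23 → ℤ) (hf : LinearIndependent ℤ f) (h : ∀ i, Dep (Set.range B) (f i)) :
    Fintype.card ι ≤ n := by
  classical
  choose k hk hkf using h
  let g : ι → Submodule.span ℤ (Set.range B) := fun i => ⟨k i • f i, hkf i⟩
  have hg : LinearIndependent ℤ g := by
    refine LinearIndependent.of_comp (Submodule.subtype _) ?_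
    rw [Fintype.linearIndependent_iff] at hf ⊢
    intro c hc i
    have h1 := hf (fun i => c i * k i) (by
      rw [← hc]
      refine sum_congr rfl fun i _ => ?_
      rw [mul_smul]
      rfl) i
    exact (mul_eq_zero.1 h1).resolve_right (hk i)
  refine hg.fintype_card_le_finrank.trans ?_
  have := finrank_range_le_card (R := ℤ) B
  rwa [Fintype.card_fin] at this

theorem rank_le {n : ℕ} (B : Fin n → Fin 23 → ℤ)
    (h : ∀ x, H.IsHodge x → Dep (Set.range B) x) : H.rank ≤ n := by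
  rw [H.rank_eq]
  let b := Module.finBasis ℤ H.hodge
  have h1 := card_le_of_dep B (fun i => (b i : Fin 23 → ℤ))
    (b.linearIndependent.map' H.hodge.subtype (Submodule.ker_subtype _)) (fun i => h _ (b i).2)
  rwa [Fintype.card_fin] at h1

theorem dep_cons {n : ℕ} {B : Fin n → Fin 23 → ℤ} {h x : Fin 23 → ℤ} (hx : Dep (Set.range B) x) :
    Dep (Set.range (Fin.cons h B : Fin (n + 1) → Fin 23 → ℤ)) x := by
  obtain ⟨k, hk, hkx⟩ := hx
  refine ⟨k, hk, Submodule.span_mono ?_ hkx⟩
  rintro _ ⟨i, rfl⟩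
  exact ⟨i.succ, Fin.cons_succ _ _ _⟩

theorem dep_scroll (hH : H.IsCubic) {n : ℕ} {B : Fin n → Fin 23 → ℤ}
    (h : ∀ x, IsV H x → Dep (Set.range B) x) {T : Fin 23 → ℤ} (hT : IsScroll H T) :
    Dep (Set.range (Fin.cons H.h B : Fin (n + 1) → Fin 23 → ℤ)) T := by
  have h1 : Dep (Set.range (Fin.cons H.h B : Fin (n + 1) → Fin 23 → ℤ)) (T - H.h) :=
    dep_cons (h _ (isV_sub hH hT))
  obtain ⟨k, hk, hkx⟩ := h1
  refine ⟨k, hk, ?_⟩
  have : k • T = k • (T - H.h) + k • H.h := by module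
  rw [this]
  exact Submodule.add_mem _ hkx (Submodule.smul_mem _ _ (Submodule.subset_span ⟨0, rfl⟩))

/-- a product of prime numbers `1 mod 3` -/
theorem one_mod_three (e : ℕ) (he : e ≠ 0) (h : ∀ p : ℕ, p.Prime → p ∣ e → p % 3 = 1) :
    e % 3 = 1 := by
  induction e using Nat.strong_induction_on with
  | _ e ih =>
    by_cases h1 : e = 1
    · rw [h1]
    have hp := Nat.minFac_prime h1
    obtain ⟨k, hk⟩ := Nat.minFac_dvd e
    have hk0 : k ≠ 0 := by
      rintro rfl
      rw [mul_zero] at hk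
      exact he hk
    have hlt : k < e := by
      have h2 := hp.two_le
      have h3 : 0 < k := Nat.pos_of_ne_zero hk0
      nlinarith
    have h4 := ih k hlt hk0 (fun p hp hpk => h p hp (hk ▸ hpk.mul_left _))
    have h5 := h _ hp (Nat.minFac_dvd e)
    rw [hk, Nat.mul_mod, h5, h4]

/-- the arithmetic of the obstruction modulo three -/
theorem arith3 {d m q t : ℤ} (hm : IsCoprime m 6) (hd : Admissible d) (h : m ^ 2 * d = 3 * q)
    (hq : Even q) (ht : (3 : ℤ) ∣ q - t ^ 2) : False := by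
  obtain ⟨hd0, h4, h9, hp⟩ := hd
  have hm2 : IsCoprime (2 : ℤ) m := (IsCoprime.of_mul_right_left (by
    rwa [show (6 : ℤ) = 2 * 3 by norm_num] at hm)).symm
  have hm3 : IsCoprime (3 : ℤ) m := (IsCoprime.of_mul_right_right (by
    rwa [show (6 : ℤ) = 2 * 3 by norm_num] at hm)).symm
  have h3d : (3 : ℤ) ∣ d := (hm3.pow_right (n := 2)).dvd_of_dvd_mul_left ⟨q, h⟩
  obtain ⟨d', rfl⟩ := h3d
  have h5 : m ^ 2 * d' = q := by
    have : 3 * (m ^ 2 * d') = 3 * q := by rw [← h]; ring
    exact mul_left_cancel₀ (by norm_num) this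
  have h2d : (2 : ℤ) ∣ d' := (hm2.pow_right (n := 2)).dvd_of_dvd_mul_left (by
    rw [h5]; exact hq.two_dvd)
  obtain ⟨e, rfl⟩ := h2d
  have he0 : 0 < e := by omega
  obtain ⟨n, rfl⟩ : ∃ n : ℕ, e = n := ⟨e.toNat, (Int.toNat_of_nonneg he0.le).symm⟩
  have hn0 : n ≠ 0 := by
    rintro rfl
    simp at he0
  have h6 : n % 3 = 1 := by
    refine one_mod_three n hn0 fun p hpp hpn => ?_
    have hp2 : p ≠ 2 := by
      rintro rfl
      apply h4
      obtain ⟨k, hk⟩ := hpn
      exact ⟨3 * k, by rw [hk]; push_cast; ring⟩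
    have hp3 : p ≠ 3 := by
      rintro rfl
      apply h9
      obtain ⟨k, hk⟩ := hpn
      exact ⟨2 * k, by rw [hk]; push_cast; ring⟩
    have h7 := hp p hpp hp2 (by
      obtain ⟨k, hk⟩ := hpn
      exact ⟨6 * k, by rw [hk]; push_cast; ring⟩)
    have h8 : p % 3 ≠ 0 := by
      intro h8
      exact hp3 ((Nat.prime_dvd_prime_iff_eq Nat.prime_three hpp).1 (Nat.dvd_of_mod_eq_zero h8)).symm
    omega
  have h7 : m % 3 ≠ 0 := by
    intro h8
    have h9 : (3 : ℤ) ∣ m := Int.dvd_of_emod_eq_zero h8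
    have := hm3.isUnit_of_dvd' dvd_rfl h9
    rw [Int.isUnit_iff] at this
    omega
  have h8 : (m * m) % 3 = 1 := by
    rw [Int.mul_emod]
    have : m % 3 = 1 ∨ m % 3 = 2 := by omega
    rcases this with h | h <;> rw [h] <;> norm_num
  have h9' : (t * t) % 3 = 0 ∨ (t * t) % 3 = 1 := by
    rw [Int.mul_emod]
    have : t % 3 = 0 ∨ t % 3 = 1 ∨ t % 3 = 2 := by omega
    rcases this with h | h | h <;> rw [h] <;> norm_num
  have h10 : q % 3 = 2 := by
    rw [← h5, show m ^ 2 * (2 * (n : ℤ)) = (m * m) * (2 * (n : ℤ)) by ring, Int.mul_emod, h8]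
    omega
  have h11 : q % 3 = (t * t) % 3 := by
    have : (3 : ℤ) ∣ q - t * t := by rwa [← pow_two]
    omega
  omega

theorem mod3_span (hH : H.IsCubic) {u : Fin 23 → ℤ}
    (hmod : ∀ w w', IsV H w → IsV H w' → (H.ip w w' - H.ip u w * H.ip u w') % 3 = 0)
    {y : Fin 23 → ℤ} (hy : y ∈ Submodule.span ℤ {v | IsV H v}) :
    (3 : ℤ) ∣ H.ip y y - H.ip u y ^ 2 := by
  have h1 : ∀ w, IsV H w → ∀ y ∈ Submodule.span ℤ {v | IsV H v},
      (3 : ℤ) ∣ H.ip y w - H.ip u y * H.ip u w := by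
    intro w hw y hy
    induction hy using Submodule.span_induction with
    | mem x hx => exact Int.dvd_of_emod_eq_zero (hmod x w hx hw)
    | zero => simp [ip_zero_left, ip_zero_right]
    | add x y _ _ hx hy =>
      rw [ip_add_left, ip_add_right]
      have : H.ip x w + H.ip y w - (H.ip u x + H.ip u y) * H.ip u w =
        (H.ip x w - H.ip u x * H.ip u w) + (H.ip y w - H.ip u y * H.ip u w) := by ring
      rw [this]
      exact dvd_add hx hy
    | smul n x _ hx =>
      rw [ip_smul_left, ip_smul_right]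
      have : n * H.ip x w - n * H.ip u x * H.ip u w =
        n * (H.ip x w - H.ip u x * H.ip u w) := by ring
      rw [this]
      exact hx.mul_left n
  have h2 : ∀ x ∈ Submodule.span ℤ {v | IsV H v}, ∀ y ∈ Submodule.span ℤ {v | IsV H v},
      (3 : ℤ) ∣ H.ip y x - H.ip u y * H.ip u x := by
    intro x hx y hy
    induction hx using Submodule.span_induction with
    | mem x hx => exact h1 x hx y hy
    | zero => simp [ip_zero_right]
    | add x z _ _ hx hz =>
      rw [ip_add_right, ip_add_right]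
      have : H.ip y x + H.ip y z - H.ip u y * (H.ip u x + H.ip u z) =
        (H.ip y x - H.ip u y * H.ip u x) + (H.ip y z - H.ip u y * H.ip u z) := by ring
      rw [this]
      exact dvd_add hx hz
    | smul n x _ hx =>
      rw [ip_smul_right, ip_smul_right]
      have : n * H.ip y x - H.ip u y * (n * H.ip u x) =
        n * (H.ip y x - H.ip u y * H.ip u x) := by ring
      rw [this]
      exact hx.mul_left n
  have h3 := h2 y hy y hy
  rwa [← pow_two] at h3

theorem decomp (hH : H.IsCubic) (hno : ∀ P, ¬ H.IsPl P) {x : Fin 23 → ℤ}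
    (hx : x ∈ Submodule.span ℤ (Gens H)) :
    ∃ (b : ℤ) (y : Fin 23 → ℤ), y ∈ Submodule.span ℤ {v | IsV H v} ∧ x = b • H.h + y := by
  induction hx using Submodule.span_induction with
  | mem x hx =>
    rcases gens_cases hH hx with rfl | hx | ⟨v, hv, rfl⟩
    · exact ⟨1, 0, Submodule.zero_mem _, by module⟩
    · exact absurd hx (hno x)
    · exact ⟨1, v, Submodule.subset_span hv, by module⟩
  | zero => exact ⟨0, 0, Submodule.zero_mem _, by module⟩
  | add x z _ _ hx hz =>
    obtain ⟨b, y, hy, rfl⟩ := hx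
    obtain ⟨c, w, hw, rfl⟩ := hz
    exact ⟨b + c, y + w, Submodule.add_mem _ hy hw, by module⟩
  | smul n x _ hx =>
    obtain ⟨b, y, hy, rfl⟩ := hx
    exact ⟨n * b, n • y, Submodule.smul_mem _ _ hy, by module⟩

theorem prim_span {y : Fin 23 → ℤ} (hy : y ∈ Submodule.span ℤ {v | IsV H v}) : Prim H y := by
  induction hy using Submodule.span_induction with
  | mem x hx => exact IsV.prim hx
  | zero => exact ⟨H.isHodge_zero, H.ip_zero_left _⟩
  | add x z _ _ hx hz => exact hx.add hz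
  | smul n x _ hx => exact hx.smul n

/-- no associated K3 surface in the case of the obstruction modulo three -/
theorem no_k3_three (hH : H.IsCubic) (hno : ∀ P, ¬ H.IsPl P) {u : Fin 23 → ℤ}
    (hmod : ∀ w w', IsV H w → IsV H w' → (H.ip w w' - H.ip u w * H.ip u w') % 3 = 0)
    (hgen : ∀ v, H.IsHodge v → ∃ m : ℤ, IsCoprime m 6 ∧ m • v ∈ Submodule.span ℤ (Gens H)) :
    ¬ H.HasK3 := by
  rintro ⟨v, hv, -, hd⟩
  obtain ⟨m, hm, hmv⟩ := hgen v hv
  obtain ⟨b, y, hy, he⟩ := decomp hH hno hmv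
  have h1 : H.disc (m • v) = m ^ 2 * H.disc v := by
    simp only [disc, ip_smul_left, ip_smul_right]; ring
  have hyP := prim_span hy
  have h2 : H.disc (m • v) = 3 * H.ip y y := by
    rw [he, ← D_self hH, D_add_left, D_smul_left, D_h hH, D_comm hH y, D_add_left, D_smul_left,
      D_h hH, D, hyP.2]
    ring
  rw [h1] at h2
  have h3 : Even (H.ip y y) := (prim_norm hH hyP.1 hyP.2).2.1
  exact arith3 hm hd h2 h3 (mod3_span hH hmod hy)

theorem odd_of_coprime {m : ℤ} (hm : IsCoprime m 6) : Odd m := by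
  rw [← Int.not_even_iff_odd]
  intro h
  have h1 : IsCoprime m 2 := IsCoprime.of_mul_right_left (by
    rwa [show (6 : ℤ) = 2 * 3 by norm_num] at hm)
  have := h1.isUnit_of_dvd' h.two_dvd dvd_rfl
  rw [Int.isUnit_iff] at this
  omega

/-- **The main theorem.** -/
theorem main (hH : H.IsCubic)
    (hgen : ∀ v, H.IsHodge v → ∃ m : ℤ, IsCoprime m 6 ∧ m • v ∈ Submodule.span ℤ (Gens H))
    (h : (∃ P, H.IsPl P) ∨ 6 ≤ H.rank) : H.HasK3 ↔ InC H 14 ∨ InC H 26 ∨ InC H 42 := by
  constructor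
  · intro hK
    by_contra hcon
    push Not at hcon
    obtain ⟨h14, h26, h42⟩ := hcon
    have heven : (∀ u v, IsV H u → IsV H v → Even (H.ip u v)) → False := by
      intro hvv
      obtain ⟨h1, h2⟩ := dvd_gens hH h14 hvv
      refine no_k3_four (Gens H) (fun x hx => four_dvd hH (Gens H) h1 h2 hx) (fun v hv => ?_) hK
      obtain ⟨m, hm, hmv⟩ := hgen v hv
      exact ⟨m, odd_of_coprime hm, hmv⟩
    by_cases hP : ∃ P, H.IsPl P
    · obtain ⟨P, hP⟩ := hP
      apply heven
      intro u v hu hv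
      by_contra hodd
      rw [Int.not_even_iff_odd] at hodd
      rcases inC_plane_odd hH hP hu hv hodd with h1 | h1
      · exact h14 h1
      · exact h26 h1
    · have h6 := h.resolve_left hP
      push Not at hP
      rcases scrolls hH h42 with h1 | ⟨u, hu, h1⟩ | ⟨B, hB⟩
      · exact heven h1
      · exact no_k3_three hH hP h1 hgen hK
      · have h2 : H.rank ≤ 5 := by
          refine rank_le (Fin.cons H.h B) fun x hx => ?_
          obtain ⟨m, hm, hmx⟩ := hgen x hx
          have hm0 : m ≠ 0 := by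
            rintro rfl
            exact absurd (odd_of_coprime hm) (by decide)
          refine Dep.of_smul hm0 (dep_span (fun g hg => ?_) hmx)
          rcases hg with rfl | hg | hg
          · exact ⟨1, one_ne_zero, by
              rw [one_smul]; exact Submodule.subset_span ⟨0, rfl⟩⟩
          · exact absurd hg (hP g)
          · exact dep_scroll hH hB hg
        omega
  · rintro (h1 | h1 | h1)
    · exact hasK3_of_inC (Or.inl rfl) h1
    · exact hasK3_of_inC (Or.inr (Or.inl rfl)) h1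
    · exact hasK3_of_inC (Or.inr (Or.inr rfl)) h1

/-- the group of Hodge classes is generated by planes -/
theorem planes (hH : H.IsCubic)
    (hgen : ∀ v, H.IsHodge v → ∃ m : ℤ, Odd m ∧
      m • v ∈ Submodule.span ℤ {x | x = H.h ∨ H.IsPl x}) :
    H.HasK3 ↔ ∃ P Q, H.IsPl P ∧ H.IsPl Q ∧ H.ip P Q = 0 := by
  constructor
  · intro hK
    by_contra hcon
    push Not at hcon
    have hPP : ∀ P Q, H.IsPl P → H.IsPl Q → (2 : ℤ) ∣ D H P Q := by
      intro P Q hP hQ
      rw [D, hP.2.1, hQ.2.1]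
      rcases plane_plane hH hP hQ with h | h | h | h
      · rw [h, hQ.2.2]; norm_num
      · exact absurd h (hcon P Q hP hQ)
      all_goals rw [h]; norm_num
    refine no_k3_four {x | x = H.h ∨ H.IsPl x} (fun x hx => four_dvd hH _ ?_ ?_ hx) hgen hK
    · rintro x (rfl | hx) y (rfl | hy)
      · rw [D_h hH]; exact dvd_zero _
      · rw [D_h hH]; exact dvd_zero _
      · rw [D_h_right hH]; exact dvd_zero _
      · exact hPP x y hx hy
    · rintro x (rfl | hx)
      · rw [D_h hH]; exact dvd_zero _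
      · rw [D, hx.2.1, hx.2.2]; norm_num
  · rintro ⟨P, Q, hP, hQ, h⟩
    exact hasK3_of_inC (Or.inl rfl) (inC_planes hH hP hQ h)

/-- arbitrary cubic fourfolds with many scrolls -/
theorem scrolls_inC (hH : H.IsCubic) {T : Fin 6 → Fin 23 → ℤ} (hT : ∀ i, IsScroll H (T i))
    (hli : LinearIndependent ℤ T) {S₁ S₂ S₃ S₄ : Fin 23 → ℤ} (h1 : IsScroll H S₁)
    (h2 : IsScroll H S₂) (h3 : IsScroll H S₃) (h4 : IsScroll H S₄) (h12 : Even (H.ip S₁ S₂))
    (h34 : (3 : ℤ) ∣ H.ip S₃ S₄) : InC H 42 := by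
  by_contra h42
  have e : ∀ {S S' : Fin 23 → ℤ}, IsScroll H S → IsScroll H S' →
      H.ip (S - H.h) (S' - H.h) = H.ip S S' - 3 := by
    intro S S' hS hS'
    simp only [ip_sub_left, ip_sub_right, hS.2.1, hH.comm H.h S', hS'.2.1, hH.h_self]
    ring
  rcases scrolls hH h42 with h5 | ⟨u, hu, h5⟩ | ⟨B, hB⟩
  · have h6 := h5 _ _ (isV_sub hH h1) (isV_sub hH h2)
    rw [e h1 h2] at h6
    obtain ⟨a, ha⟩ := h12
    obtain ⟨b, hb⟩ := h6
    omega
  · have h6 := h5 _ _ (isV_sub hH h3) (isV_sub hH h4)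
    have h7 := h5 _ _ (isV_sub hH h3) (isV_sub hH h3)
    have h8 := h5 _ _ (isV_sub hH h4) (isV_sub hH h4)
    rw [e h3 h4] at h6
    rw [(isV_sub hH h3).2.2] at h7
    rw [(isV_sub hH h4).2.2] at h8
    generalize H.ip u (S₃ - H.h) = a at h6 h7
    generalize H.ip u (S₄ - H.h) = b at h6 h8
    have h9 : (3 : ℤ) ∣ a * b := by
      obtain ⟨k, hk⟩ := h34
      omega
    rcases Int.prime_three.dvd_or_dvd h9 with h | h
    · have : (3 : ℤ) ∣ a * a := h.mul_right a
      omega
    · have : (3 : ℤ) ∣ b * b := h.mul_right b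
      omega
  · have h6 := card_le_of_dep (Fin.cons H.h B) T hli (fun i => dep_scroll hH hB (hT i))
    rw [Fintype.card_fin] at h6
    omega

end Pool.Agent.Q53.LFA
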