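import Pool.Agent.Q53.LFA.Basic

/-!
# The obstruction modulo four
-/

set_option autoImplicit false

namespace Pool.Agent.Q53.LFA

open Pool.Agent.Q53.LFY Pool.Agent.Q53.LFY.CubLat

variable (H : CubLat)

/-- three times the intersection form of the projections to the orthogonal complement of `h` -/
def D (x y : Fin 23 → ℤ) : ℤ := 3 * H.ip x y - H.ip x H.h * H.ip y H.h

theorem D_add_left (x y z : Fin 23 → ℤ) : D H (x + y) z = D H x z + D H y z := by
  simp only [D, ip_add_left]; ring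

theorem D_smul_left (n : ℤ) (x z : Fin 23 → ℤ) : D H (n • x) z = n * D H x z := by
  simp only [D, ip_smul_left]; ring

theorem D_zero_left (z : Fin 23 → ℤ) : D H 0 z = 0 := by
  have := D_smul_left H 0 0 z
  rwa [zero_smul, zero_mul] at this

variable {H}

theorem D_comm (hH : H.IsCubic) (x y : Fin 23 → ℤ) : D H x y = D H y x := by
  simp only [D, hH.comm x y]; ring

theorem D_self (hH : H.IsCubic) (x : Fin 23 → ℤ) : D H x x = H.disc x := by
  simp only [D, disc, hH.comm H.h x]; ring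

theorem D_h (hH : H.IsCubic) (x : Fin 23 → ℤ) : D H H.h x = 0 := by
  simp only [D, hH.h_self, hH.comm H.h x]; ring

theorem D_h_right (hH : H.IsCubic) (x : Fin 23 → ℤ) : D H x H.h = 0 := by
  rw [D_comm hH, D_h hH]

/-- an even bilinear form on a group with generators of norm divisible by four -/
theorem four_dvd (hH : H.IsCubic) (G : Set (Fin 23 → ℤ))
    (h1 : ∀ x ∈ G, ∀ y ∈ G, (2 : ℤ) ∣ D H x y) (h2 : ∀ x ∈ G, (4 : ℤ) ∣ D H x x)
    {x : Fin 23 → ℤ} (hx : x ∈ Submodule.span ℤ G) : (4 : ℤ) ∣ H.disc x := by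
  have h3 : ∀ g ∈ G, ∀ x ∈ Submodule.span ℤ G, (2 : ℤ) ∣ D H x g := by
    intro g hg x hx
    induction hx using Submodule.span_induction with
    | mem x hx => exact h1 x hx g hg
    | zero => rw [D_zero_left]; exact dvd_zero _
    | add x y _ _ hx hy => rw [D_add_left]; exact dvd_add hx hy
    | smul n x _ hx => rw [D_smul_left]; exact Dvd.dvd.mul_left hx n
  have h4 : ∀ x ∈ Submodule.span ℤ G, ∀ y ∈ Submodule.span ℤ G, (2 : ℤ) ∣ D H y x := by
    intro x hx y hy
    induction hy using Submodule.span_induction with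
    | mem y hy => rw [D_comm hH]; exact h3 y hy x hx
    | zero => rw [D_zero_left]; exact dvd_zero _
    | add y z _ _ hy hz => rw [D_add_left]; exact dvd_add hy hz
    | smul n y _ hy => rw [D_smul_left]; exact Dvd.dvd.mul_left hy n
  rw [← D_self hH]
  induction hx using Submodule.span_induction with
  | mem x hx => exact h2 x hx
  | zero => rw [D_zero_left]; exact dvd_zero _
  | add x y hx' hy' hx hy =>
    have e : D H (x + y) (x + y) = D H x x + D H y y + 2 * D H x y := by
      rw [D_add_left, D_comm hH x (x + y), D_comm hH y (x + y), D_add_left, D_add_left,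
        D_comm hH y x]
      ring
    rw [e]
    obtain ⟨k, hk⟩ := h4 y hy' x hx'
    refine dvd_add (dvd_add hx hy) ⟨k, ?_⟩
    rw [hk]; ring
  | smul n x _ hx =>
    rw [D_smul_left, D_comm hH x (n • x), D_smul_left]
    exact Dvd.dvd.mul_left (Dvd.dvd.mul_left hx n) n

/-- no associated K3 surface if all discriminants are divisible by four -/
theorem no_k3_four (G : Set (Fin 23 → ℤ))
    (hG : ∀ x ∈ Submodule.span ℤ G, (4 : ℤ) ∣ H.disc x)
    (hgen : ∀ v, H.IsHodge v → ∃ m : ℤ, Odd m ∧ m • v ∈ Submodule.span ℤ G) : ¬ H.HasK3 := by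
  rintro ⟨v, hv, -, -, h4, -⟩
  obtain ⟨m, hm, hmv⟩ := hgen v hv
  have h1 := hG _ hmv
  have h2 : H.disc (m • v) = m ^ 2 * H.disc v := by
    simp only [disc, ip_smul_left, ip_smul_right]; ring
  rw [h2] at h1
  apply h4
  have h3 : IsCoprime (4 : ℤ) (m ^ 2) := by
    have h5 : IsCoprime (2 : ℤ) m := Int.isCoprime_iff_gcd_eq_one.2 (by
      obtain ⟨k, rfl⟩ := hm
      rw [Int.gcd_comm]
      have : Int.gcd (2 * k + 1) 2 = 1 := by
        rw [Int.gcd_comm, show (2 * k + 1 : ℤ) = 1 + 2 * k by ring, Int.gcd_add_mul_left_right]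
        norm_num
      exact this)
    have h6 := IsCoprime.pow (m := 2) (n := 2) h5
    rwa [show (2 : ℤ) ^ 2 = 4 by norm_num] at h6
  exact h3.dvd_of_dvd_mul_left h1

variable (H)

/-- the classes of the surfaces of degree at most three -/
def Gens : Set (Fin 23 → ℤ) := {x | x = H.h ∨ H.IsPl x ∨ IsScroll H x}

variable {H}


theorem gens_cases (hH : H.IsCubic) {x : Fin 23 → ℤ} (hx : x ∈ Gens H) :
    x = H.h ∨ H.IsPl x ∨ ∃ v, IsV H v ∧ x = v + H.h := by
  rcases hx with h | h | h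
  · exact Or.inl h
  · exact Or.inr (Or.inl h)
  · exact Or.inr (Or.inr ⟨x - H.h, isV_sub hH h, by abel⟩)

theorem dvd_gens (hH : H.IsCubic) (h14 : ¬ InC H 14)
    (hvv : ∀ u v, IsV H u → IsV H v → Even (H.ip u v)) :
    (∀ x ∈ Gens H, ∀ y ∈ Gens H, (2 : ℤ) ∣ D H x y) ∧ (∀ x ∈ Gens H, (4 : ℤ) ∣ D H x x) := by
  have hPv : ∀ P v, H.IsPl P → IsV H v → (2 : ℤ) ∣ D H P v := by
    intro P v hP hv
    rw [D, hP.2.1, hv.2.1]
    rcases plane_scroll hH hP hv with h | h | ⟨h, _⟩ | ⟨h, _⟩
    · exact absurd h h14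
    all_goals rw [h]; norm_num
  have hPP : ∀ P Q, H.IsPl P → H.IsPl Q → (2 : ℤ) ∣ D H P Q := by
    intro P Q hP hQ
    rw [D, hP.2.1, hQ.2.1]
    rcases plane_plane hH hP hQ with h | h | h | h
    · rw [h, hQ.2.2]; norm_num
    · exact absurd (inC_planes hH hP hQ h) h14
    all_goals rw [h]; norm_num
  have hVV : ∀ u v, IsV H u → IsV H v → (2 : ℤ) ∣ D H u v := by
    intro u v hu hv
    rw [D, hu.2.1, hv.2.1]
    obtain ⟨k, hk⟩ := hvv u v hu hv
    exact ⟨3 * k, by rw [hk]; ring⟩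
  have e : ∀ v x, D H (v + H.h) x = D H v x := by
    intro v x
    rw [D_add_left, D_h hH, add_zero]
  have e' : ∀ v x, D H x (v + H.h) = D H x v := by
    intro v x
    rw [D_comm hH, e, D_comm hH]
  refine ⟨fun x hx y hy => ?_, fun x hx => ?_⟩
  · rcases gens_cases hH hx with rfl | hx | ⟨v, hv, rfl⟩
    · rw [D_h hH]; exact dvd_zero _
    · rcases gens_cases hH hy with rfl | hy | ⟨w, hw, rfl⟩
      · rw [D_h_right hH]; exact dvd_zero _
      · exact hPP x y hx hy
      · rw [e']; exact hPv x w hx hw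
    · rw [e]
      rcases gens_cases hH hy with rfl | hy | ⟨w, hw, rfl⟩
      · rw [D_h_right hH]; exact dvd_zero _
      · rw [D_comm hH]; exact hPv y v hy hv
      · rw [e']; exact hVV v w hv hw
  · rcases gens_cases hH hx with rfl | hx | ⟨v, hv, rfl⟩
    · rw [D_h hH]; exact dvd_zero _
    · rw [D, hx.2.1, hx.2.2]; norm_num
    · rw [e, e', D, hv.2.1, hv.2.2]; norm_num

end Pool.Agent.Q53.LFA
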