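import Pool.Agent.Q53.LFA.Fin

/-!
# Classes of scrolls: the obstruction modulo three and the classes of norm 14
-/

set_option autoImplicit false

namespace Pool.Agent.Q53.LFA

open Pool.Agent.Q53.LFY Pool.Agent.Q53.LFY.CubLat Finset

variable (H : CubLat)

/-- a Hodge class orthogonal to `h` -/
def Prim (z : Fin 23 → ℤ) : Prop := H.IsHodge z ∧ H.ip z H.h = 0

/-- a nonzero multiple of `y` is in the group generated by `B` -/
def Dep (B : Set (Fin 23 → ℤ)) (y : Fin 23 → ℤ) : Prop :=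
  ∃ k : ℤ, k ≠ 0 ∧ k • y ∈ Submodule.span ℤ B

variable {H}

theorem IsV.prim {v : Fin 23 → ℤ} (hv : IsV H v) : Prim H v := ⟨hv.1, hv.2.1⟩

theorem Prim.add {u v : Fin 23 → ℤ} (hu : Prim H u) (hv : Prim H v) : Prim H (u + v) :=
  ⟨H.isHodge_add hu.1 hv.1, by rw [ip_add_left, hu.2, hv.2, add_zero]⟩

theorem Prim.smul {u : Fin 23 → ℤ} (n : ℤ) (hu : Prim H u) : Prim H (n • u) :=
  ⟨H.isHodge_smul n hu.1, by rw [ip_smul_left, hu.2, mul_zero]⟩

theorem Prim.ok (hH : H.IsCubic) (h42 : ¬ InC H 42) {z : Fin 23 → ℤ} (hz : Prim H z) :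
    Ok (H.ip z z) :=
  ⟨hH.nonneg hz.1, hH.disc_six z hz.1 hz.2, ne_fourteen hH h42 hz.1 hz.2⟩

theorem norm3 (hH : H.IsCubic) {u v w : Fin 23 → ℤ} (hu : IsV H u) (hv : IsV H v)
    (hw : IsV H w) (α β γ : ℤ) : H.ip (α • u + β • v + γ • w) (α • u + β • v + γ • w) =
      N3 (H.ip u v) (H.ip u w) (H.ip v w) α β γ := by
  simp only [ip_add_left, ip_add_right, ip_smul_left, ip_smul_right, hu.2.2, hv.2.2, hw.2.2,
    hH.comm v u, hH.comm w u, hH.comm w v, N3]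
  ring

theorem norm4 (hH : H.IsCubic) {u v w x : Fin 23 → ℤ} (hu : IsV H u) (hv : IsV H v)
    (hw : IsV H w) (hx : IsV H x) (α β γ δ : ℤ) :
    H.ip (α • u + β • v + γ • w + δ • x) (α • u + β • v + γ • w + δ • x) =
      N4 (H.ip u v) (H.ip u w) (H.ip v w) (H.ip u x) (H.ip v x) (H.ip w x) α β γ δ := by
  rw [ip_add_left, ip_add_right, norm3 hH hu hv hw]
  simp only [ip_add_left, ip_add_right, ip_smul_left, ip_smul_right, hx.2.2,
    hH.comm x u, hH.comm x v, hH.comm x w, N4]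
  ring

theorem norm5 (hH : H.IsCubic) {u v w x y : Fin 23 → ℤ} (hu : IsV H u) (hv : IsV H v)
    (hw : IsV H w) (hx : IsV H x) (hy : IsV H y) (α β γ δ ε : ℤ) :
    H.ip (α • u + β • v + γ • w + δ • x + ε • y) (α • u + β • v + γ • w + δ • x + ε • y) =
      N5 (H.ip u v) (H.ip u w) (H.ip v w) (H.ip u x) (H.ip v x) (H.ip w x)
        (H.ip u y) (H.ip v y) (H.ip w y) (H.ip x y) α β γ δ ε := by
  rw [ip_add_left, ip_add_right, norm4 hH hu hv hw hx]
  simp only [ip_add_left, ip_add_right, ip_smul_left, ip_smul_right, hy.2.2,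
    hH.comm y u, hH.comm y v, hH.comm y w, hH.comm y x, N5]
  ring

theorem ok3 (hH : H.IsCubic) (h42 : ¬ InC H 42) {u v w : Fin 23 → ℤ} (hu : IsV H u)
    (hv : IsV H v) (hw : IsV H w) (α β γ : ℤ) :
    Ok (N3 (H.ip u v) (H.ip u w) (H.ip v w) α β γ) := by
  rw [← norm3 hH hu hv hw]
  exact (((hu.prim.smul α).add (hv.prim.smul β)).add (hw.prim.smul γ)).ok hH h42

theorem ok4 (hH : H.IsCubic) (h42 : ¬ InC H 42) {u v w x : Fin 23 → ℤ} (hu : IsV H u)
    (hv : IsV H v) (hw : IsV H w) (hx : IsV H x) (α β γ δ : ℤ) :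
    Ok (N4 (H.ip u v) (H.ip u w) (H.ip v w) (H.ip u x) (H.ip v x) (H.ip w x) α β γ δ) := by
  rw [← norm4 hH hu hv hw hx]
  exact ((((hu.prim.smul α).add (hv.prim.smul β)).add (hw.prim.smul γ)).add
    (hx.prim.smul δ)).ok hH h42

theorem ok5 (hH : H.IsCubic) (h42 : ¬ InC H 42) {u v w x y : Fin 23 → ℤ} (hu : IsV H u)
    (hv : IsV H v) (hw : IsV H w) (hx : IsV H x) (hy : IsV H y) (α β γ δ ε : ℤ) :
    Ok (N5 (H.ip u v) (H.ip u w) (H.ip v w) (H.ip u x) (H.ip v x) (H.ip w x)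
      (H.ip u y) (H.ip v y) (H.ip w y) (H.ip x y) α β γ δ ε) := by
  rw [← norm5 hH hu hv hw hx hy]
  exact (((((hu.prim.smul α).add (hv.prim.smul β)).add (hw.prim.smul γ)).add
    (hx.prim.smul δ)).add (hy.prim.smul ε)).ok hH h42

theorem zero_of_norm (hH : H.IsCubic) {z : Fin 23 → ℤ} (hz : Prim H z) (h : H.ip z z = 0) :
    z = 0 := (prim_norm hH hz.1 hz.2).2.2.2 h

/-- a scroll with the three possible intersection numbers -/
theorem mod3_one (hH : H.IsCubic) (h42 : ¬ InC H 42) {u v : Fin 23 → ℤ} (hu : IsV H u)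
    (hv : IsV H v) (huv : H.ip u v = 1)
    (hno : ∀ w, IsV H w → ¬ (((H.ip u w = 1 ∨ H.ip u w = -1) ∧ H.ip v w = 0) ∨
      (H.ip u w = 0 ∧ (H.ip v w = 1 ∨ H.ip v w = -1)))) {w : Fin 23 → ℤ} (hw : IsV H w) :
    (H.ip u w - H.ip v w) % 3 = 0 ∧ H.ip u w % 3 ≠ 0 := by
  have hvu : H.ip v u = 1 := by rw [hH.comm]; exact huv
  rcases scroll_scroll hH hu hw with h | h | ⟨h1, h2⟩
  · rw [← h, hu.2.2, hvu]; norm_num
  · have h' : w = -u := by rw [h, neg_neg]
    rw [h', ip_neg_right, ip_neg_right, hu.2.2, hvu]; norm_num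
  rcases scroll_scroll hH hv hw with h | h | ⟨h3, h4⟩
  · rw [← h, hv.2.2, huv]; norm_num
  · have h' : w = -v := by rw [h, neg_neg]
    rw [h', ip_neg_right, ip_neg_right, hv.2.2, huv]; norm_num
  have h5 := claim3 (H.ip u w) (by rw [mem_Icc]; exact ⟨h1, h2⟩) (H.ip v w)
    (by rw [mem_Icc]; exact ⟨h3, h4⟩) (fun α _ β _ γ _ => by
      have := ok3 hH h42 hu hv hw α β γ
      rwa [huv] at this)
  rcases h5 with h5 | h5
  · exact h5
  · exact absurd h5 (hno w hw)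

theorem sq_mod {a : ℤ} (h : a % 3 ≠ 0) : (4 - a * a) % 3 = 0 := by
  have h1 : a % 3 = 1 ∨ a % 3 = 2 := by omega
  have h2 : (4 - a * a) % 3 = (4 - (a % 3) * (a % 3)) % 3 := by
    rw [Int.sub_emod, Int.mul_emod, Int.sub_emod 4 ((a % 3) * (a % 3))]
  rw [h2]
  rcases h1 with h1 | h1 <;> rw [h1] <;> norm_num

/-- **The obstruction modulo three**, for two scrolls -/
theorem mod3_two (hH : H.IsCubic) (h42 : ¬ InC H 42) {u v : Fin 23 → ℤ} (hu : IsV H u)
    (hv : IsV H v) (huv : H.ip u v = 1)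
    (hno : ∀ w, IsV H w → ¬ (((H.ip u w = 1 ∨ H.ip u w = -1) ∧ H.ip v w = 0) ∨
      (H.ip u w = 0 ∧ (H.ip v w = 1 ∨ H.ip v w = -1)))) {w w' : Fin 23 → ℤ} (hw : IsV H w)
    (hw' : IsV H w') : (H.ip w w' - H.ip u w * H.ip u w') % 3 = 0 := by
  have hvu : H.ip v u = 1 := by rw [hH.comm]; exact huv
  obtain ⟨p1, p2⟩ := mod3_one hH h42 hu hv huv hno hw
  obtain ⟨q1, q2⟩ := mod3_one hH h42 hu hv huv hno hw'
  rcases scroll_scroll hH hu hw with h | h | ⟨h1, h2⟩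
  · rw [← h, hu.2.2]; omega
  · have h' : w = -u := by rw [h, neg_neg]
    rw [h', ip_neg_right, ip_neg_left, hu.2.2]; omega
  rcases scroll_scroll hH hv hw with h | h | ⟨h3, h4⟩
  · rw [← h, huv]; omega
  · have h' : w = -v := by rw [h, neg_neg]
    rw [h', ip_neg_right, ip_neg_left, huv]; omega
  rcases scroll_scroll hH hu hw' with h | h | ⟨h5, h6⟩
  · rw [← h, hu.2.2, hH.comm w u]; omega
  · have h' : w' = -u := by rw [h, neg_neg]
    rw [h', ip_neg_right, ip_neg_right, hu.2.2, hH.comm w u]; omega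
  rcases scroll_scroll hH hv hw' with h | h | ⟨h7, h8⟩
  · rw [← h, huv, hH.comm w v]; omega
  · have h' : w' = -v := by rw [h, neg_neg]
    rw [h', ip_neg_right, ip_neg_right, huv, hH.comm w v]; omega
  rcases scroll_scroll hH hw hw' with h | h | ⟨h9, h10⟩
  · rw [← h, hw.2.2]
    exact sq_mod p2
  · have h' : w' = -w := by rw [h, neg_neg]
    rw [h', ip_neg_right, ip_neg_right, hw.2.2]
    have := sq_mod p2
    have e : -4 - H.ip u w * -H.ip u w = -(4 - H.ip u w * H.ip u w) := by ring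
    rw [e]
    omega
  exact claim4 _ (by rw [mem_Icc]; exact ⟨h1, h2⟩) _ (by rw [mem_Icc]; exact ⟨h3, h4⟩)
    _ (by rw [mem_Icc]; exact ⟨h5, h6⟩) _ (by rw [mem_Icc]; exact ⟨h7, h8⟩)
    _ (by rw [mem_Icc]; exact ⟨h9, h10⟩) p1 p2 q1 q2 (fun α _ β _ γ _ => by
      have := ok4 hH h42 hu hv hw hw' α β γ 1
      rwa [huv] at this)

theorem span_four (u v w x : Fin 23 → ℤ) (α β γ δ : ℤ) (hδ : δ ≠ 0)
    (h : α • u + β • v + γ • w + δ • x = 0) : Dep {u, v, w} x := by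
  refine ⟨δ, hδ, ?_⟩
  have h1 : δ • x = (-α) • u + (-β) • v + (-γ) • w := by
    have : δ • x = -(α • u + β • v + γ • w) := eq_neg_of_add_eq_zero_right h
    rw [this]; module
  rw [h1]
  refine Submodule.add_mem _ (Submodule.add_mem _ (Submodule.smul_mem _ _ ?_)
    (Submodule.smul_mem _ _ ?_)) (Submodule.smul_mem _ _ ?_) <;>
  · apply Submodule.subset_span
    simp

theorem span_five (u v w x y : Fin 23 → ℤ) (α β γ δ ε : ℤ) (hε : ε ≠ 0)
    (h : α • u + β • v + γ • w + δ • x + ε • y = 0) : Dep {u, v, w, x} y := by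
  refine ⟨ε, hε, ?_⟩
  have h1 : ε • y = (-α) • u + (-β) • v + (-γ) • w + (-δ) • x := by
    have : ε • y = -(α • u + β • v + γ • w + δ • x) := eq_neg_of_add_eq_zero_right h
    rw [this]; module
  rw [h1]
  refine Submodule.add_mem _ (Submodule.add_mem _ (Submodule.add_mem _
    (Submodule.smul_mem _ _ ?_) (Submodule.smul_mem _ _ ?_)) (Submodule.smul_mem _ _ ?_))
    (Submodule.smul_mem _ _ ?_) <;>
  · apply Submodule.subset_span
    simp

/-- a scroll independent of a triple with the intersection numbers `1, 1, 0` -/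
theorem fourth (hH : H.IsCubic) (h42 : ¬ InC H 42) {u v w : Fin 23 → ℤ} (hu : IsV H u)
    (hv : IsV H v) (hw : IsV H w) (huv : H.ip u v = 1) (huw : H.ip u w = 1) (hvw : H.ip v w = 0)
    {x : Fin 23 → ℤ} (hx : IsV H x) (hdep : ¬ Dep {u, v, w} x) :
    H.ip u x = 0 ∧ (H.ip v x = 1 ∨ H.ip v x = -1) ∧ (H.ip w x = 1 ∨ H.ip w x = -1) := by
  have hne : ∀ z ∈ ({u, v, w} : Set (Fin 23 → ℤ)), z ≠ x ∧ z ≠ -x := by
    intro z hz
    constructor
    · rintro rfl
      exact hdep ⟨1, one_ne_zero, by rw [one_smul]; exact Submodule.subset_span hz⟩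
    · rintro rfl
      exact hdep ⟨-1, by norm_num, by rw [neg_one_smul]; exact Submodule.subset_span hz⟩
  have hr : ∀ z ∈ ({u, v, w} : Set (Fin 23 → ℤ)), IsV H z → H.ip z x ∈ Icc (-2 : ℤ) 2 := by
    intro z hz hzV
    rcases scroll_scroll hH hzV hx with h | h | ⟨h1, h2⟩
    · exact absurd h (hne z hz).1
    · exact absurd h (hne z hz).2
    · rw [mem_Icc]; exact ⟨h1, h2⟩
  refine claimX _ (hr u (by simp) hu) _ (hr v (by simp) hv) _ (hr w (by simp) hw)
    (fun α _ β _ γ _ => ?_)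
  have h1 := ok4 hH h42 hu hv hw hx α β γ 1
  have h2 := norm4 hH hu hv hw hx α β γ 1
  rw [huv, huw, hvw] at h1 h2
  refine ⟨h1, fun h0 => hdep ?_⟩
  rw [h0] at h2
  exact span_four u v w x α β γ 1 one_ne_zero (zero_of_norm hH
    ((((hu.prim.smul α).add (hv.prim.smul β)).add (hw.prim.smul γ)).add (hx.prim.smul 1)) h2)

/-- there are no two such scrolls -/
theorem fifth (hH : H.IsCubic) (h42 : ¬ InC H 42) {u v w : Fin 23 → ℤ} (hu : IsV H u)
    (hv : IsV H v) (hw : IsV H w) (huv : H.ip u v = 1) (huw : H.ip u w = 1) (hvw : H.ip v w = 0)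
    {x y : Fin 23 → ℤ} (hx : IsV H x) (hy : IsV H y) (hdep : ¬ Dep {u, v, w} x)
    (hdep' : ¬ Dep {u, v, w, x} y) : False := by
  obtain ⟨a1, a2, a3⟩ := fourth hH h42 hu hv hw huv huw hvw hx hdep
  have hdep'' : ¬ Dep {u, v, w} y := by
    rintro ⟨k, hk, hky⟩
    refine hdep' ⟨k, hk, Submodule.span_mono ?_ hky⟩
    intro z hz
    simp only [Set.mem_insert_iff, Set.mem_singleton_iff] at hz ⊢
    tauto
  obtain ⟨b1, b2, b3⟩ := fourth hH h42 hu hv hw huv huw hvw hy hdep''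
  have hd : H.ip x y ∈ Icc (-2 : ℤ) 2 := by
    rcases scroll_scroll hH hx hy with h | h | ⟨h1, h2⟩
    · exact absurd ⟨1, one_ne_zero, by rw [one_smul, ← h]; exact Submodule.subset_span (by simp)⟩ hdep'
    · refine absurd ⟨-1, by norm_num, ?_⟩ hdep'
      rw [neg_one_smul, ← h]
      exact Submodule.subset_span (by simp)
    · rw [mem_Icc]; exact ⟨h1, h2⟩
  refine claimXY (H.ip v x) (by simpa using a2) (H.ip w x) (by simpa using a3)
    (H.ip v y) (by simpa using b2) (H.ip w y) (by simpa using b3) _ hd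
    (fun α _ β _ γ _ δ _ => ?_)
  have h1 := ok5 hH h42 hu hv hw hx hy α β γ δ 1
  have h2 := norm5 hH hu hv hw hx hy α β γ δ 1
  rw [huv, huw, hvw, a1, b1] at h1 h2
  refine ⟨h1, fun h0 => hdep' ?_⟩
  rw [h0] at h2
  exact span_five u v w x y α β γ δ 1 one_ne_zero (zero_of_norm hH
    (((((hu.prim.smul α).add (hv.prim.smul β)).add (hw.prim.smul γ)).add (hx.prim.smul δ)).add
      (hy.prim.smul 1)) h2)

/-- **The dichotomy for scrolls.** -/
theorem scrolls (hH : H.IsCubic) (h42 : ¬ InC H 42) :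
    (∀ u v, IsV H u → IsV H v → Even (H.ip u v)) ∨
    (∃ u, IsV H u ∧ ∀ w w', IsV H w → IsV H w' → (H.ip w w' - H.ip u w * H.ip u w') % 3 = 0) ∨
    (∃ B : Fin 4 → Fin 23 → ℤ, ∀ x, IsV H x → Dep (Set.range B) x) := by
  by_cases h1 : ∀ u v, IsV H u → IsV H v → Even (H.ip u v)
  · exact Or.inl h1
  right
  push Not at h1
  obtain ⟨u, v, hu, hv, huv⟩ := h1
  rw [Int.not_even_iff_odd] at huv
  -- normalise the sign
  obtain ⟨v, hv, huv⟩ : ∃ v, IsV H v ∧ H.ip u v = 1 := by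
    rcases scroll_scroll hH hu hv with h | h | ⟨h1, h2⟩
    · rw [h, hv.2.2] at huv; exact absurd huv (by decide)
    · rw [h, ip_neg_left, hv.2.2] at huv; exact absurd huv (by decide)
    obtain ⟨k, hk⟩ := huv
    have h3 : H.ip u v = 1 ∨ H.ip u v = -1 := by omega
    rcases h3 with h3 | h3
    · exact ⟨v, hv, h3⟩
    · exact ⟨-v, hv.neg, by rw [ip_neg_right, h3]; norm_num⟩
  by_cases hno : ∀ w, IsV H w → ¬ (((H.ip u w = 1 ∨ H.ip u w = -1) ∧ H.ip v w = 0) ∨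
      (H.ip u w = 0 ∧ (H.ip v w = 1 ∨ H.ip v w = -1)))
  · exact Or.inl ⟨u, hu, fun w w' hw hw' => mod3_two hH h42 hu hv huv hno hw hw'⟩
  right
  obtain ⟨u, v, w, hu, hv, hw, huv, huw, hvw⟩ : ∃ u v w, IsV H u ∧ IsV H v ∧ IsV H w ∧
      H.ip u v = 1 ∧ H.ip u w = 1 ∧ H.ip v w = 0 := by
    push Not at hno
    obtain ⟨w, hw, h⟩ := hno
    have hvu : H.ip v u = 1 := by rw [hH.comm]; exact huv
    rcases h with ⟨h1 | h1, h2⟩ | ⟨h1, h2 | h2⟩
    · exact ⟨u, v, w, hu, hv, hw, huv, h1, h2⟩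
    · exact ⟨u, v, -w, hu, hv, hw.neg, huv, by rw [ip_neg_right, h1]; norm_num,
        by rw [ip_neg_right, h2]; norm_num⟩
    · exact ⟨v, u, w, hv, hu, hw, hvu, h2, h1⟩
    · exact ⟨v, u, -w, hv, hu, hw.neg, hvu, by rw [ip_neg_right, h2]; norm_num,
        by rw [ip_neg_right, h1]; norm_num⟩
  have hrange : ∀ x : Fin 23 → ℤ, Set.range ![u, v, w, x] = {u, v, w, x} := by
    intro x
    simp only [Matrix.range_cons, Matrix.range_empty, Set.union_empty, Set.singleton_union]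
  by_cases h2 : ∀ x, IsV H x → Dep {u, v, w} x
  · refine ⟨![u, v, w, 0], fun x hx => ?_⟩
    obtain ⟨k, hk, hkx⟩ := h2 x hx
    refine ⟨k, hk, Submodule.span_mono ?_ hkx⟩
    rw [hrange]
    intro z hz
    simp only [Set.mem_insert_iff, Set.mem_singleton_iff] at hz ⊢
    tauto
  · push Not at h2
    obtain ⟨x, hx, hxd⟩ := h2
    refine ⟨![u, v, w, x], fun y hy => ?_⟩
    rw [hrange]
    by_contra hyd
    exact fifth hH h42 hu hv hw huv huw hvw hx hy hxd hyd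

end Pool.Agent.Q53.LFA
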